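import Pool.Agent.KS6_84.D29.Main

/-!
# `O(𝔻 ∪ {1})` and `O(𝔻 ∪ β)` are not isomorphic

For every closed non-degenerate arc `β` of the unit circle the germ spaces `O(𝔻 ∪ {1})` and
`O(𝔻 ∪ β)`, with their locally convex inductive limit topologies, are not isomorphic as
topological vector spaces.

Idea of the proof. Let `T : O(𝔻 ∪ β) → O(𝔻 ∪ {1})` be an isomorphism. By the Baire category
theorem (applied to the Fréchet spaces `O(V)`) the maps `T` and `T⁻¹` satisfy estimates between
suitable neighbourhoods. For polynomials `f` of the form `((1+w)/2)^(M d) P(w)` (with `w` a rotation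
of `z` that moves the middle of the arc to `1`, and `P` of degree at most `d`) the maximum
principle shows that `f` is much smaller on a slightly smaller disc than on an outer arc near `β`
together with a small disc in `𝔻`. The polynomials `P` of degree at most `d` form a space of
dimension `d + 1`, so one can choose `P ≠ 0` such that `T f` vanishes to order `d` at `1`. Then
`T f` is very small near `1` and, by continuity of `T`, small on compact subsets of `𝔻`. By
continuity of `T⁻¹` this makes `f` smaller than itself, a contradiction.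
-/

open Filter Set Topology Metric

namespace Pool.Agent.Results.MP_d29d91_an.NotIsomorphic

open Pool.Agent.KS6_84.D29

/-- **Theorem.** Let `β = {e^{iθ} : a ≤ θ ≤ b}` with `a < b` be a closed non-degenerate arc of the
unit circle. There is no linear homeomorphism between `O(𝔻 ∪ {1})` and `O(𝔻 ∪ β)`. -/
theorem result (a b : ℝ) (hab : a < b) :
    IsEmpty (OSpace (ball (0 : ℂ) 1 ∪ {1}) ≃L[ℂ]
      OSpace (ball (0 : ℂ) 1 ∪ (fun θ : ℝ => Complex.exp (θ * Complex.I)) '' Icc a b)) := by
  refine ⟨fun e => ?_⟩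
  obtain ⟨φ, hφ⟩ : ∃ φ, φ = min ((b - a) / 2) (Real.pi / 3) := ⟨_, rfl⟩
  have hpi := Real.pi_pos
  have hφ0 : 0 < φ := by
    rw [hφ]
    exact lt_min (by linarith) (by positivity)
  have hφ1 : φ ≤ (b - a) / 2 := by rw [hφ]; exact min_le_left _ _
  have hφ2 : φ ≤ Real.pi / 3 := by rw [hφ]; exact min_le_right _ _
  obtain ⟨θ₀, hθ₀⟩ : ∃ θ₀, θ₀ = (a + b) / 2 := ⟨_, rfl⟩
  obtain ⟨u, hu⟩ : ∃ u : ℂ, u = Complex.exp (((-θ₀ : ℝ) : ℂ) * Complex.I) := ⟨_, rfl⟩
  have hu1 : ‖u‖ = 1 := by rw [hu, Complex.norm_exp_ofReal_mul_I]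
  have hκ₀ : 1 / 2 ≤ Real.cos φ := by
    rw [← Real.cos_pi_div_three]
    exact Real.cos_le_cos_of_nonneg_of_le_pi hφ0.le (by linarith) hφ2
  have hκ₀' : Real.cos φ < 1 := by
    rw [← Real.cos_zero]
    exact Real.cos_lt_cos_of_nonneg_of_le_pi le_rfl (by linarith) hφ0
  refine main u hu1 hκ₀ hκ₀' (E := ball (0 : ℂ) 1 ∪
    (fun θ : ℝ => Complex.exp (θ * Complex.I)) '' Icc a b) subset_union_left ?_ ?_
    (e.symm : OSpace (ball (0 : ℂ) 1 ∪ (fun θ : ℝ => Complex.exp (θ * Complex.I)) '' Icc a b)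
      →L[ℂ] OSpace (ball (0 : ℂ) 1 ∪ {1})) (e : OSpace (ball (0 : ℂ) 1 ∪ {1}) →L[ℂ] _) ?_
  · intro ζ hζ hre
    right
    have h1 : ‖u * ζ‖ = 1 := by rw [norm_mul, hu1, hζ, one_mul]
    obtain ⟨ψ, hψ⟩ : ∃ ψ, ψ = Complex.arg (u * ζ) := ⟨_, rfl⟩
    have h2 : u * ζ = Complex.exp (ψ * Complex.I) := by
      rw [hψ]
      have := Complex.norm_mul_exp_arg_mul_I (u * ζ)
      rw [h1, Complex.ofReal_one, one_mul] at this
      exact this.symm
    have h3 : Real.cos φ ≤ Real.cos |ψ| := by
      rw [Real.cos_abs]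
      rw [h2, Complex.exp_ofReal_mul_I_re] at hre
      exact hre
    have h4 : |ψ| ≤ Real.pi := by
      rw [hψ]
      exact Complex.abs_arg_le_pi _
    have h5 : |ψ| ≤ φ := by
      by_contra hlt
      push Not at hlt
      have := Real.cos_lt_cos_of_nonneg_of_le_pi hφ0.le h4 hlt
      linarith
    rw [abs_le] at h5
    refine ⟨θ₀ + ψ, ⟨by linarith, by linarith⟩, ?_⟩
    change Complex.exp (((θ₀ + ψ : ℝ) : ℂ) * Complex.I) = ζ
    have h6 : Complex.exp ((θ₀ : ℂ) * Complex.I) * u = 1 := by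
      rw [hu, ← Complex.exp_add]
      push_cast
      rw [neg_mul, add_neg_cancel, Complex.exp_zero]
    calc Complex.exp (((θ₀ + ψ : ℝ) : ℂ) * Complex.I)
        = Complex.exp ((θ₀ : ℂ) * Complex.I) * Complex.exp (ψ * Complex.I) := by
          rw [← Complex.exp_add]
          push_cast
          ring_nf
      _ = (Complex.exp ((θ₀ : ℂ) * Complex.I) * u) * ζ := by rw [← h2]; ring
      _ = ζ := by rw [h6, one_mul]
  · apply union_subset ball_subset_closedBall
    rintro _ ⟨θ, -, rfl⟩
    rw [mem_closedBall_zero_iff]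
    exact (Complex.norm_exp_ofReal_mul_I θ).le
  · intro φ
    exact e.apply_symm_apply φ

end Pool.Agent.Results.MP_d29d91_an.NotIsomorphic
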